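import Mathlib
import Pool.Agent.Q150.EG.Univ
import Pool.Agent.Q150.EG.GBridge

/-!
# MP_6c8412_lc: infinitely generic groups with elementarily equivalent von Neumann algebras

There are countable infinitely generic groups `G`, `H` which are not isomorphic, but whose group
von Neumann algebras are elementarily equivalent.
-/

set_option autoImplicit false

namespace Pool.Agent.Results.MP_6c8412_lc.InfGeneric

open Function FirstOrder
open Pool.Agent.Q150.EG (LEquiv lEquiv_of)

/-- The function symbols of the language of groups. -/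
inductive GrpFunc : ℕ → Type
  | one : GrpFunc 0
  | inv : GrpFunc 1
  | mul : GrpFunc 2

/-- The first-order language of groups. -/
def Lgrp : FirstOrder.Language.{0, 0} := ⟨GrpFunc, fun _ => Empty⟩

/-- A group as a structure of the language of groups. -/
instance grpStructure (G : Type) [Group G] : Lgrp.Structure G where
  funMap := fun {n} (f : GrpFunc n) => match n, f with
    | _, .one => fun _ => 1
    | _, .inv => fun x => (x 0)⁻¹
    | _, .mul => fun x => x 0 * x 1
  RelMap := fun {_} (r : Empty) => r.elim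

/-- `G` is `ω`-existentially saturated: every set `p` of existential formulas in the language of
groups, in `m` parameters `g 0, …, g (m - 1)` from `G` and `n` variables, which is realized in some
group `K` containing `G` (by an injective homomorphism `ψ`), is realized in `G`. -/
def IsSaturated (G : Type) [Group G] : Prop :=
  ∀ (m n : ℕ) (p : Set (Lgrp.Formula (Fin m ⊕ Fin n))) (g : Fin m → G),
    (∀ φ ∈ p, FirstOrder.Language.BoundedFormula.IsExistential φ) →
    (∃ (K : Type) (_ : Group K) (ψ : G →* K), Injective ψ ∧ ∃ x : Fin n → K,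
      ∀ φ ∈ p, φ.Realize (Sum.elim (ψ ∘ g) x)) →
    ∃ x : Fin n → G, ∀ φ ∈ p, φ.Realize (Sum.elim g x)

/-- `G` is infinitely generic: it is (isomorphic to) an elementary subgroup of some
`ω`-existentially saturated group. -/
def IsInfinitelyGeneric (G : Type) [Group G] : Prop :=
  ∃ (U : Type) (_ : Group U), IsSaturated U ∧ Nonempty (G ↪ₑ[Lgrp] U)

/-! ### Proofs -/

/-- an injective homomorphism is an embedding -/
def emb {K L : Type} [Group K] [Group L] (ψ : K →* L) (hψ : Injective ψ) : K ↪[Lgrp] L where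
  toFun := ψ
  inj' := hψ
  map_fun' := by
    intro n (f : GrpFunc n) x
    cases f with
    | one => exact map_one ψ
    | inv => exact map_inv ψ _
    | mul => exact map_mul ψ _ _
  map_rel' := by
    intro n (r : Empty) x
    exact r.elim

instance : Countable Lgrp.Symbols := by
  have h1 : Countable (Σ n, Lgrp.Functions n) := by
    show Countable (Σ n, GrpFunc n)
    refine Injective.countable (f := fun p : (Σ n, GrpFunc n) => p.1) ?_
    rintro ⟨n, f⟩ ⟨m, g⟩ h
    simp only at h
    subst h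
    congr 1
    cases f <;> cases g <;> rfl
  have h2 : Countable (Σ n, Lgrp.Relations n) := by
    show Countable (Σ _ : ℕ, Empty)
    infer_instance
  show Countable ((Σ n, Lgrp.Functions n) ⊕ Σ n, Lgrp.Relations n)
  infer_instance

/-- existential types -/
abbrev ETyp (m n : ℕ) : Type :=
  {p : Set (Lgrp.Formula (Fin m ⊕ Fin n)) // ∀ φ ∈ p, FirstOrder.Language.BoundedFormula.IsExistential φ}

/-- realization -/
def SatE (m n : ℕ) (p : ETyp m n) (K : Type) [Group K] (v : Fin m ⊕ Fin n → K) : Prop :=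
  ∀ φ ∈ p.1, φ.Realize v

theorem persistE : Pool.Agent.Q150.EG.Persist SatE := by
  intro m n p K L _ _ ψ hψ v h φ hφ
  have h1 := (p.2 φ hφ).realize_embedding (emb ψ hψ) (h φ hφ)
  have h2 : (⇑(emb ψ hψ) ∘ (default : Fin 0 → K)) = (default : Fin 0 → L) := Subsingleton.elim _ _
  rw [h2] at h1
  exact h1

theorem saturated_of {U : Type} [Group U] (h : Pool.Agent.Q150.EG.ClosedG SatE U) :
    IsSaturated U :=
  fun m n p g hp hc => h m n ⟨p, hp⟩ g hc

/-- the Tarski-Vaught requirement -/
def FO {U : Type} [Group U] (S : Subgroup U) (A : Set U) : Prop :=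
  ∀ (n : ℕ) (φ : Lgrp.BoundedFormula Empty (n + 1)) (x : Fin n → S),
    (∃ a : U, φ.Realize default (Fin.snoc (fun i => (x i : U)) a : Fin (n + 1) → U)) →
    ∃ a ∈ A, φ.Realize default (Fin.snoc (fun i => (x i : U)) a : Fin (n + 1) → U)

theorem fo_mono {U : Type} [Group U] (S : Subgroup U) (A B : Set U) (h : A ⊆ B) (hA : FO S A) :
    FO S B := by
  intro n φ x hc
  obtain ⟨a, ha, ha'⟩ := hA n φ x hc
  exact ⟨a, h ha, ha'⟩

theorem exists_fo {U : Type} [Group U] (S : Subgroup U) (hS : Countable S) :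
    ∃ A : Set U, A.Countable ∧ FO S A := by
  classical
  let P : ∀ (n : ℕ) (φ : Lgrp.BoundedFormula Empty (n + 1)) (x : Fin n → S), U → Prop :=
    fun n φ x a => φ.Realize default (Fin.snoc (fun i => (x i : U)) a : Fin (n + 1) → U)
  let J : Type := Σ n : ℕ, Lgrp.BoundedFormula Empty (n + 1) × (Fin n → S)
  have hJ : Countable J := by
    have h1 : ∀ n, Countable (Lgrp.BoundedFormula Empty (n + 1)) := fun n =>
      Injective.countable (f := fun φ => (⟨n + 1, φ⟩ : Σ n, Lgrp.BoundedFormula Empty n))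
        sigma_mk_injective
    have h2 : ∀ n, Countable (Lgrp.BoundedFormula Empty (n + 1) × (Fin n → S)) := fun n =>
      inferInstance
    infer_instance
  let w : J → U := fun j => if h : ∃ a, P j.1 j.2.1 j.2.2 a then Classical.choose h else 1
  have hw : ∀ j : J, (∃ a, P j.1 j.2.1 j.2.2 a) → P j.1 j.2.1 j.2.2 (w j) := by
    intro j h
    show P j.1 j.2.1 j.2.2 (if h : ∃ a, P j.1 j.2.1 j.2.2 a then Classical.choose h else 1)
    rw [dif_pos h]
    exact Classical.choose_spec h
  refine ⟨Set.range w, Set.countable_range _, ?_⟩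
  intro n φ x hc
  exact ⟨w ⟨n, (φ, x)⟩, ⟨_, rfl⟩, hw ⟨n, (φ, x)⟩ hc⟩

theorem elementary_union {U : Type} [Group U] (S : ℕ → Subgroup U) (hS : Monotone S)
    (hc : ∀ n, FO (S n) (S (n + 1))) : Nonempty (↥(⨆ n, S n) ↪ₑ[Lgrp] U) := by
  have hmem : ∀ u : U, u ∈ (⨆ n, S n) ↔ ∃ n, u ∈ S n := fun u =>
    Subgroup.mem_iSup_of_directed hS.directed_le
  refine ⟨(emb (⨆ n, S n).subtype (Subgroup.subtype_injective _)).toElementaryEmbedding ?_⟩
  intro n φ x a ha
  have h3 : ∀ i, ∃ N, (x i : U) ∈ S N := fun i => (hmem _).1 (x i).2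
  choose N hN using h3
  have h4 : ∀ i, (x i : U) ∈ S (∑ i, N i) := fun i =>
    hS (Finset.single_le_sum (f := N) (fun i _ => Nat.zero_le _) (Finset.mem_univ i)) (hN i)
  obtain ⟨c, hc1, hc2⟩ := hc (∑ i, N i) n φ (fun i => ⟨x i, h4 i⟩) ⟨a, ha⟩
  exact ⟨⟨c, (hmem c).2 ⟨_, hc1⟩⟩, hc2⟩

/-- There are countable infinitely generic groups `G`, `H`, not isomorphic, with `L(G) ≡ L(H)`.
Moreover there is an `ω`-existentially saturated group `U` such that for every countable group `A` and
every countable group `K` there is a countable infinitely generic group `G` which contains a copy of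
`A`, is not embeddable in `K`, and for which `L(G) ≡ L(U)`. -/
theorem result :
    (∃ (G H : Type) (_ : Group G) (_ : Group H), Countable G ∧ Countable H ∧
      IsInfinitelyGeneric G ∧ IsInfinitelyGeneric H ∧ IsEmpty (G ≃* H) ∧ LEquiv G H) ∧
    ∃ (U : Type) (_ : Group U), IsSaturated U ∧
      ∀ (A K : Type) [Group A] [Group K] [Countable A] [Countable K],
        ∃ (G : Type) (_ : Group G), Countable G ∧ IsInfinitelyGeneric G ∧
          (∃ φ : A →* G, Injective φ) ∧ (∀ ψ : G →* K, ¬ Injective ψ) ∧ LEquiv G U := by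
  have key : ∃ (U : Type) (_ : Group U), IsSaturated U ∧
      ∀ (A K : Type) [Group A] [Group K] [Countable A] [Countable K],
        ∃ (G : Type) (_ : Group G), Countable G ∧ IsInfinitelyGeneric G ∧
          (∃ φ : A →* G, Injective φ) ∧ (∀ ψ : G →* K, ¬ Injective ψ) ∧ LEquiv G U := by
    obtain ⟨Γ, iΓ, hΓ⟩ := Pool.Agent.Q150.EG.exists_universal
    obtain ⟨U, iU, θ, hθ, hU⟩ := Pool.Agent.Q150.EG.exists_closed SatE persistE Γ
    refine ⟨U, iU, saturated_of hU, ?_⟩
    intro A K _ _ _ _
    obtain ⟨S, hS, hΦ, hc, hA, hK, hE⟩ := Pool.Agent.Q150.EG.exists_subgroup (U := U)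
      (fun B _ _ => by
        obtain ⟨φ, hφ⟩ := hΓ B
        exact ⟨θ.comp φ, hθ.comp hφ⟩)
      (fun S A => FO S A) (fun S hS => exists_fo S hS) (fun S A B => fo_mono S A B) A K
    exact ⟨↥(⨆ n, S n), inferInstance, hc, ⟨U, iU, saturated_of hU, elementary_union S hS hΦ⟩,
      hA, hK, lEquiv_of _ _ hE⟩
  refine ⟨?_, key⟩
  obtain ⟨U, iU, -, hM⟩ := key
  obtain ⟨G, iG, hcG, hG, -, -, hGM⟩ := hM Unit Unit
  obtain ⟨H, iH, hcH, hH, -, hn, hHM⟩ := hM Unit G
  refine ⟨G, H, iG, iH, hcG, hcH, hG, hH, ⟨fun e => ?_⟩, hGM.trans' hHM⟩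
  exact hn e.symm.toMonoidHom e.symm.injective

end Pool.Agent.Results.MP_6c8412_lc.InfGeneric
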